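import Pool.Agent.Helper9.RC2.Goals
import Pool.Agent.Helper32.RC.CutDown

/-!
# MP_b55b7c_an, project RC2, packet SYM: the symmetrised square of a column with small support
-/

open scoped ENNReal NNReal InnerProductSpace ComplexOrder
open Filter Topology

attribute [-instance] CStarMatrix.instAlgebra CStarMatrix.instModule CStarMatrix.instSMul
  CStarMatrix.instMulAction CStarMatrix.instDistribMulAction

noncomputable section
universe u

namespace Pool.Agent.Helper77.RC2.SYM
open RC RC.CutDown

theorem cu_sq {A : Type u} [CStarAlgebra A] [PartialOrder A] [StarOrderedRing A]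
    {n ν : Type} [Fintype n] [DecidableEq n] [Fintype ν] [DecidableEq ν]
    (W' : CStarMatrix n ν A) {E : CStarMatrix ν ν A} (hE : 0 ≤ E) :
    Cu ((W' * E) * (W' * E).conjTranspose) E := by
  have hss := sqrt_mul_self' hE
  set s : CStarMatrix ν ν A := cfc Real.sqrt E with hs
  have hsc : s.conjTranspose = s := by
    have h : IsSelfAdjoint s := cfc_predicate _ _
    exact h.star_eq
  have hEc : E.conjTranspose = E := hE.isSelfAdjoint.star_eq
  have h := cu_conj (W' * s) E
  have h2 : W' * s * E * (W' * s).conjTranspose = (W' * E) * (W' * E).conjTranspose := by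
    rw [cm_conj_mul, cm_conj_mul, hsc, hEc]
    have h3 : s * E * s = E * E := by
      conv_lhs => rw [← hss]
      conv_rhs => rw [← hss]
      simp only [mul_assoc]
    calc W' * s * E * (s * W'.conjTranspose) = W' * (s * E * s) * W'.conjTranspose := by
          simp only [cm_assoc]
      _ = W' * (E * E) * W'.conjTranspose := by rw [h3]
      _ = W' * E * (E * W'.conjTranspose) := by
          simp only [cm_assoc]
  rwa [h2] at h

theorem t (hMp : MpP.{u}) (hPull : QPullP.{u}) (hMono : QMonoP.{u}) (hQD : QDsumP.{u})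
    (hAdd : CuAddP.{u}) : SymP.{u} := by
  intro A _ _ _ B _ _ _ G _ _ α j hα hj n ν _ _ _ _ W W' e θ he hW hdim
  classical
  set αh : G → (A →⋆ₐ[ℂ] A) := fun g => ((α g : A ≃⋆ₐ[ℂ] A) : A →⋆ₐ[ℂ] A) with hαh
  have hαa : ∀ g x, αh g x = α g x := fun g x => rfl
  have hinj : ∀ g, Function.Injective (αh g) := fun g => (α g).injective
  set c : CStarMatrix n n A := W * W.conjTranspose with hc'
  have hc : 0 ≤ c := cm_mul_conj_nonneg W
  set T : G → CStarMatrix n n A := fun g => mp (αh g) c with hTd
  have hT0 : ∀ g, 0 ≤ T g := fun g =>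
    (hMp A A (αh g) (hinj g) n n c c).1.1 hc
  set ct : CStarMatrix n n A := ∑ g, T g with hct
  have hct0 : 0 ≤ ct := Finset.sum_nonneg fun g _ => hT0 g
  have hα1 : ∀ x, α 1 x = x := by
    intro x
    have h := hα 1 1 x
    rw [mul_one] at h
    exact ((α 1).injective h).symm
  have hT1 : T 1 = c := by
    ext i k
    exact hα1 (c i k)
  have hcle : c ≤ ct := by
    conv_lhs => rw [← hT1]
    exact Finset.single_le_sum (fun g _ => hT0 g) (Finset.mem_univ 1)
  have hentry : ∀ i k, ct i k = ∑ g, α g (c i k) := by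
    intro i k
    exact Matrix.sum_apply _ _ _ _
  have hinv : ∀ h i k, α h (ct i k) = ct i k := by
    intro h i k
    rw [hentry, map_sum]
    have h2 : ∀ g, α h (α g (c i k)) = α (h * g) (c i k) := fun g => (hα h g _).symm
    simp_rw [h2]
    exact Fintype.sum_equiv (Equiv.mulLeft h) _ _ fun g => rfl
  have hex : ∀ i k, ∃ x, j x = ct i k := fun i k => (hj.2 _).1 fun g => hinv g i k
  choose C hC using hex
  set CC : CStarMatrix n n B := CStarMatrix.ofMatrix C with hCC
  have hmp : mp j CC = ct := by
    ext i k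
    exact hC i k
  have hCC0 : 0 ≤ CC := by
    refine (hMp A B j hj.1 n n CC CC).1.2 ?_
    rw [hmp]
    exact hct0
  have hE : 0 ≤ mp j e := (hMp A B j hj.1 ν ν e e).1.1 he
  have hdimc : ∀ σ : QTrace A, σ.dim c ≤ θ := by
    intro σ
    refine le_trans (hMono A σ n ν c (mp j e) hc hE ?_) (hdim σ)
    rw [hc', hW]
    exact cu_sq W' hE
  refine ⟨CC, hCC0, ?_, ?_⟩
  · rw [hmp]
    exact hcle
  · intro σ
    rw [hmp]
    have h := dim_sum_le hAdd hMono hQD σ T hT0 θ (fun g => by
      obtain ⟨σg, h⟩ := hPull A A (αh g) (hinj g) σ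
      have h2 := h n c hc
      show σ.dim (mp (αh g) c) ≤ θ
      rw [← h2]
      exact hdimc σg) Finset.univ
    rwa [Finset.card_univ] at h

end Pool.Agent.Helper77.RC2.SYM
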